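import Mathlib

namespace Pool.Agent.LibRankDiag

open Finset

/-- `x log x` at natural numbers -/
noncomputable def ph (m : ℕ) : ℝ := (m : ℝ) * Real.log m

lemma tangent {r : ℕ} (hr : 1 ≤ r) (m : ℕ) (h1 : m ≠ r) (h2 : m ≠ r + 1) :
    ph r + ((m : ℝ) - r) * (ph (r + 1) - ph r) < ph m := by
  have hconv := Real.strictConvexOn_mul_log
  rcases lt_or_gt_of_ne h1 with h | h
  · have := hconv.slope_strict_mono_adjacent (x := (m : ℝ)) (y := (r : ℝ)) (z := ((r + 1 : ℕ) : ℝ))
      (Set.mem_Ici.2 (Nat.cast_nonneg m)) (Set.mem_Ici.2 (Nat.cast_nonneg _))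
      (by exact_mod_cast h) (by push_cast; linarith)
    unfold ph
    have e1 : ((r + 1 : ℕ) : ℝ) - (r : ℝ) = 1 := by push_cast; ring
    have h3 : (0 : ℝ) < (r : ℝ) - m := by
      have : (m : ℝ) < r := by exact_mod_cast h
      linarith
    rw [e1, div_one, div_lt_iff₀ h3] at this
    nlinarith
  · have h' : r + 1 < m := by omega
    have := hconv.slope_strict_mono_adjacent (x := (r : ℝ)) (y := ((r + 1 : ℕ) : ℝ)) (z := (m : ℝ))
      (Set.mem_Ici.2 (Nat.cast_nonneg r)) (Set.mem_Ici.2 (Nat.cast_nonneg _))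
      (by push_cast; linarith) (by exact_mod_cast h')
    unfold ph
    have e1 : ((r + 1 : ℕ) : ℝ) - (r : ℝ) = 1 := by push_cast; ring
    have h3 : (0 : ℝ) < (m : ℝ) - ((r + 1 : ℕ) : ℝ) := by
      have : ((r + 1 : ℕ) : ℝ) < m := by exact_mod_cast h'
      linarith
    rw [e1, div_one, lt_div_iff₀ h3] at this
    have e2 : ((r + 1 : ℕ) : ℝ) = (r : ℝ) + 1 := by push_cast; ring
    rw [e2] at this ⊢
    nlinarith

lemma tangent_le {r : ℕ} (hr : 1 ≤ r) (m : ℕ) :
    ph r + ((m : ℝ) - r) * (ph (r + 1) - ph r) ≤ ph m := by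
  by_cases h1 : m = r
  · rw [h1]; simp
  by_cases h2 : m = r + 1
  · rw [h2]; push_cast; linarith
  exact (tangent hr m h1 h2).le

/-- the bound `M(n,k)` -/
noncomputable def M (n k : ℕ) : ℝ :=
  (1 / ((n / k : ℕ) : ℝ) ^ (n / k)) ^ (k - n % k) *
    (1 / ((n / k + 1 : ℕ) : ℝ) ^ (n / k + 1)) ^ (n % k)

variable {n k : ℕ}

lemma M_pos (hk : 1 ≤ k) (hkn : k ≤ n) : 0 < M n k := by
  unfold M
  have : 0 < n / k := Nat.div_pos hkn hk
  positivity

lemma log_M (hk : 1 ≤ k) (hkn : k ≤ n) : Real.log (M n k) =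
    -((k : ℝ) * ph (n / k) + ((n : ℝ) - k * (n / k : ℕ)) * (ph (n / k + 1) - ph (n / k))) := by
  have hr : 0 < n / k := Nat.div_pos hkn hk
  have hr' : (0 : ℝ) < ((n / k : ℕ) : ℝ) := by exact_mod_cast hr
  unfold M
  rw [Real.log_mul (by positivity) (by positivity), Real.log_pow, Real.log_pow,
    one_div, one_div, Real.log_inv, Real.log_inv, Real.log_pow, Real.log_pow]
  have h1 : ((n % k : ℕ) : ℝ) = (n : ℝ) - k * (n / k : ℕ) := by
    have := Nat.div_add_mod n k
    have h2 : ((k * (n / k) + n % k : ℕ) : ℝ) = (n : ℝ) := by rw [this]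
    push_cast at h2
    linarith
  have h3 : ((k - n % k : ℕ) : ℝ) = (k : ℝ) - ((n : ℝ) - k * (n / k : ℕ)) := by
    rw [Nat.cast_sub (Nat.mod_lt n hk).le, h1]
  rw [h1, h3]
  unfold ph
  ring

/-- size of the class `t` -/
def cs (c : Fin n → Fin k) (t : Fin k) : ℕ := (univ.filter (fun i => c i = t)).card

lemma cs_pos (c : Fin n → Fin k) (i : Fin n) : 0 < cs c (c i) := by
  unfold cs
  exact card_pos.2 ⟨i, by simp⟩

lemma sum_cs (c : Fin n → Fin k) : ∑ t, cs c t = n := by
  unfold cs
  have := card_eq_sum_card_fiberwise (f := c) (s := univ) (t := univ)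
    (fun _ _ => by simp)
  rw [card_univ, Fintype.card_fin] at this
  exact this.symm

/-- regrouping a sum according to the classes -/
lemma sum_classes (c : Fin n → Fin k) (g : Fin n → ℝ) :
    ∑ i, g i = ∑ t, ∑ i, if c i = t then g i else 0 := by
  rw [sum_comm]
  apply sum_congr rfl
  intro i _
  rw [sum_ite_eq]
  simp

/-- the slack identity -/
lemma main_bound (hk : 1 ≤ k) (hkn : k ≤ n) (a : Fin n → ℝ) (ha : ∀ i, 0 ≤ a i)
    (c : Fin n → Fin k) (hc : ∀ t, ∑ i, (if c i = t then a i else 0) ≤ 1) :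
    ∏ i, a i ≤ M n k ∧ (∏ i, a i = M n k →
      (∀ t, cs c t = n / k ∨ cs c t = n / k + 1) ∧ ∀ i, a i = 1 / cs c (c i)) := by
  have hM := M_pos hk hkn
  by_cases hz : ∃ i, a i = 0
  · obtain ⟨i, hi⟩ := hz
    have : ∏ i, a i = 0 := prod_eq_zero (mem_univ i) hi
    rw [this]
    exact ⟨hM.le, fun h => absurd h hM.ne⟩
  push Not at hz
  have hpos : ∀ i, 0 < a i := fun i => lt_of_le_of_ne (ha i) (Ne.symm (hz i))
  have hprod : 0 < ∏ i, a i := prod_pos (fun i _ => hpos i)
  have hr : 1 ≤ n / k := Nat.div_pos hkn hk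
  -- the slacks
  set s1 : Fin n → ℝ := fun i => (cs c (c i) : ℝ) * a i - 1 - Real.log ((cs c (c i) : ℝ) * a i)
    with hs1
  set s2 : Fin k → ℝ := fun t => ph (cs c t) - (ph (n / k) + ((cs c t : ℝ) - (n / k : ℕ)) *
    (ph (n / k + 1) - ph (n / k))) with hs2
  set s3 : Fin k → ℝ := fun t => (cs c t : ℝ) * (1 - ∑ i, (if c i = t then a i else 0)) with hs3
  have hcp : ∀ i, (0 : ℝ) < cs c (c i) := fun i => by exact_mod_cast cs_pos c i
  have h1 : ∀ i, 0 ≤ s1 i := by
    intro i
    have := Real.log_le_sub_one_of_pos (mul_pos (hcp i) (hpos i))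
    rw [hs1]
    simp only
    linarith
  have h2 : ∀ t, 0 ≤ s2 t := by
    intro t
    have := tangent_le hr (cs c t)
    rw [hs2]
    simp only
    linarith
  have h3 : ∀ t, 0 ≤ s3 t := by
    intro t
    rw [hs3]
    simp only
    apply mul_nonneg (Nat.cast_nonneg _)
    linarith [hc t]
  have key : Real.log (M n k) - Real.log (∏ i, a i) = ∑ i, s1 i + ∑ t, s2 t + ∑ t, s3 t := by
    rw [log_M hk hkn, Real.log_prod (fun i _ => (hpos i).ne')]
    have e1 : ∑ i, s1 i = ∑ i, (cs c (c i) : ℝ) * a i - n - ∑ i, Real.log (cs c (c i) : ℝ) -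
        ∑ i, Real.log (a i) := by
      rw [hs1]
      simp only
      rw [sum_sub_distrib, sum_sub_distrib]
      have : ∑ i, Real.log ((cs c (c i) : ℝ) * a i) =
          ∑ i, Real.log (cs c (c i) : ℝ) + ∑ i, Real.log (a i) := by
        rw [← sum_add_distrib]
        apply sum_congr rfl
        intro i _
        rw [Real.log_mul (hcp i).ne' (hpos i).ne']
      rw [this]
      simp only [sum_const, card_univ, Fintype.card_fin, nsmul_eq_mul, mul_one]
      ring
    have hone : ∀ t, ∑ i, (if c i = t then (1 : ℝ) else 0) = cs c t := by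
      intro t
      unfold cs
      rw [card_filter]
      push_cast
      rfl
    have e2 : ∑ i, Real.log (cs c (c i) : ℝ) = ∑ t, ph (cs c t) := by
      rw [sum_classes c]
      apply sum_congr rfl
      intro t _
      have : ∀ i, (if c i = t then Real.log (cs c (c i) : ℝ) else 0) =
          (if c i = t then (1 : ℝ) else 0) * Real.log (cs c t) := by
        intro i
        split_ifs with h
        · rw [h, one_mul]
        · rw [zero_mul]
      rw [sum_congr rfl (fun i _ => this i), ← sum_mul, hone]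
      rfl
    have e3 : ∑ i, (cs c (c i) : ℝ) * a i =
        ∑ t, (cs c t : ℝ) * ∑ i, (if c i = t then a i else 0) := by
      rw [sum_classes c]
      apply sum_congr rfl
      intro t _
      rw [mul_sum]
      apply sum_congr rfl
      intro i _
      split_ifs with h
      · rw [h]
      · rw [mul_zero]
    have e4 : ∑ t, (cs c t : ℝ) = n := by
      have := sum_cs c
      exact_mod_cast this
    have e5 : ∑ t, s2 t = ∑ t, ph (cs c t) - ((k : ℝ) * ph (n / k) +
        ((n : ℝ) - k * (n / k : ℕ)) * (ph (n / k + 1) - ph (n / k))) := by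
      rw [hs2]
      simp only
      rw [sum_sub_distrib, sum_add_distrib, ← sum_mul, sum_sub_distrib, e4]
      simp only [sum_const, card_univ, Fintype.card_fin, nsmul_eq_mul]
    have e6 : ∑ t, s3 t = n - ∑ i, (cs c (c i) : ℝ) * a i := by
      rw [hs3, e3]
      simp only [mul_sub, mul_one]
      rw [sum_sub_distrib, e4]
    rw [e1, e2, e5, e6]
    ring
  have hS1 : 0 ≤ ∑ i, s1 i := sum_nonneg (fun i _ => h1 i)
  have hS2 : 0 ≤ ∑ t, s2 t := sum_nonneg (fun t _ => h2 t)
  have hS3 : 0 ≤ ∑ t, s3 t := sum_nonneg (fun t _ => h3 t)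
  constructor
  · rw [← Real.log_le_log_iff hprod hM]
    linarith
  · intro heq
    rw [heq, sub_self] at key
    have z1 : ∑ i, s1 i = 0 := by linarith
    have z2 : ∑ t, s2 t = 0 := by linarith
    constructor
    · intro t
      by_contra hno
      push Not at hno
      have := tangent hr (cs c t) hno.1 hno.2
      have h0 := (sum_eq_zero_iff_of_nonneg (fun t _ => h2 t)).1 z2 t (mem_univ t)
      rw [hs2] at h0
      simp only at h0
      linarith
    · intro i
      have h0 := (sum_eq_zero_iff_of_nonneg (fun i _ => h1 i)).1 z1 i (mem_univ i)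
      rw [hs1] at h0
      simp only at h0
      have h4 : (cs c (c i) : ℝ) * a i = 1 := by
        by_contra hne
        have := Real.log_lt_sub_one_of_pos (mul_pos (hcp i) (hpos i)) hne
        linarith
      have := hcp i
      field_simp
      linarith

end Pool.Agent.LibRankDiag
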