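import Pool.Agent.LibRankDiag.Partition
import Pool.Agent.LibRankDiag.Bound

namespace Pool.Agent.LibRankDiag

open Finset Matrix

variable {n k : ℕ}

lemma pad_class {K : ℕ} (hK : K ≤ k) (c : Fin n → Fin K) (a : Fin n → ℝ)
    (hc : ∀ t, ∑ i, (if c i = t then a i else 0) ≤ 1) (t : Fin k) :
    ∑ i, (if Fin.castLE hK (c i) = t then a i else 0) ≤ 1 := by
  by_cases h : ∃ t' : Fin K, Fin.castLE hK t' = t
  · obtain ⟨t', rfl⟩ := h
    refine le_trans (le_of_eq ?_) (hc t')
    apply sum_congr rfl
    intro i _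
    have : Fin.castLE hK (c i) = Fin.castLE hK t' ↔ c i = t' :=
      ⟨fun h => Fin.castLE_injective hK h, fun h => by rw [h]⟩
    rw [if_congr this rfl rfl]
  · push Not at h
    rw [sum_eq_zero]
    · exact zero_le_one
    · intro i _
      rw [if_neg (h (c i))]

lemma cs_update (c : Fin n → Fin k) (i : Fin n) (t : Fin k) (ht : c i ≠ t) :
    cs (Function.update c i t) t = cs c t + 1 := by
  unfold cs
  have : univ.filter (fun j => Function.update c i t j = t) =
      insert i (univ.filter (fun j => c j = t)) := by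
    ext j
    rw [mem_insert, mem_filter, mem_filter]
    by_cases h : j = i
    · subst h; simp
    · rw [Function.update_of_ne h]
      simp [h]
  rw [this, card_insert_of_notMem]
  simp [ht]

theorem diag_bound {A : Matrix (Fin n) (Fin n) ℝ} (hA : RowStochastic A) (hk : 1 ≤ k)
    (hkn : k ≤ n) (hr : A.rank ≤ k) : ∏ i, A i i ≤ M n k ∧ (∏ i, A i i = M n k →
      ∃ c : Fin n → Fin k, (∀ t, cs c t = n / k ∨ cs c t = n / k + 1) ∧
        ∀ p j, A p j = if c p = c j then 1 / (cs c (c j) : ℝ) else 0) := by
  have hn : 0 < n := by omega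
  generalize hK : A.rank = K at hr
  obtain ⟨U, V, hUV, hex⟩ := exists_factor hA hn hK
  obtain ⟨c0, hc0⟩ := exists_isMax V hex
  have hgen : ∀ c : Fin n → Fin K, IsMax V c → ∏ i, A i i ≤ M n k ∧ (∏ i, A i i = M n k →
      (∀ t, cs (fun i => Fin.castLE hr (c i)) t = n / k ∨
        cs (fun i => Fin.castLE hr (c i)) t = n / k + 1) ∧
      ∀ i, A i i = 1 / cs (fun i => Fin.castLE hr (c i)) (Fin.castLE hr (c i))) := by
    intro c hc
    exact main_bound hk hkn (fun i => A i i) (fun i => hA.1 i i) (fun i => Fin.castLE hr (c i))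
      (pad_class hr c _ (class_sum_le hA U V hUV c hc))
  refine ⟨(hgen c0 hc0).1, ?_⟩
  intro heq
  have hrpos : 1 ≤ n / k := Nat.div_pos hkn hk
  -- the rank is exactly k
  have hKk : K = k := by
    apply le_antisymm hr
    have h1 := ((hgen c0 hc0).2 heq).1 ⟨k - 1, by omega⟩
    have h2 : 0 < cs (fun i => Fin.castLE hr (c0 i)) ⟨k - 1, by omega⟩ := by omega
    unfold cs at h2
    obtain ⟨i, hi⟩ := card_pos.1 h2
    rw [mem_filter] at hi
    have h3 := congrArg Fin.val hi.2
    rw [Fin.val_castLE] at h3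
    simp only at h3
    have := (c0 i).2
    omega
  subst hKk
  have hall : ∀ c : Fin n → Fin K, IsMax V c →
      (∀ t, cs c t = n / K ∨ cs c t = n / K + 1) ∧ ∀ i, A i i = 1 / cs c (c i) := by
    intro c hc
    exact (hgen c hc).2 heq
  obtain ⟨hsz, hval⟩ := hall c0 hc0
  refine ⟨c0, hsz, ?_⟩
  -- no ties
  have hstrict : ∀ i t, t ≠ c0 i → Nn V c0 t i < Nn V c0 (c0 i) i := by
    intro i t ht
    refine lt_of_le_of_ne (N_le V c0 hc0 i t) ?_
    intro htie
    have hm := isMax_update V c0 hc0 i t htie
    obtain ⟨hsz', hval'⟩ := hall _ hm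
    have h1 : 0 < cs c0 t := by
      rcases hsz t with h | h <;> omega
    obtain ⟨j, hj⟩ := card_pos.1 h1
    have hj' : c0 j = t := (mem_filter.1 hj).2
    have hji : j ≠ i := by
      rintro rfl
      exact ht hj'.symm
    have h2 := hval j
    have h3 := hval' j
    rw [Function.update_of_ne hji, hj', cs_update c0 i t ht.symm] at h3
    rw [hj'] at h2
    rw [h2] at h3
    have h4 : (0 : ℝ) < cs c0 t := by exact_mod_cast h1
    push_cast at h3
    rw [div_eq_div_iff h4.ne' (by positivity)] at h3
    linarith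
  have hclass : ∀ t, ∑ i, (if c0 i = t then A i i else 0) = 1 := by
    intro t
    have h1 : 0 < cs c0 t := by
      rcases hsz t with h | h <;> omega
    have h4 : (0 : ℝ) < cs c0 t := by exact_mod_cast h1
    have h2 : ∀ i, (if c0 i = t then A i i else 0) = (if c0 i = t then (1 : ℝ) else 0) *
        (1 / cs c0 t) := by
      intro i
      split_ifs with h
      · rw [hval i, h, one_mul]
      · rw [zero_mul]
    rw [sum_congr rfl (fun i _ => h2 i), ← sum_mul]
    have h3 : ∑ i, (if c0 i = t then (1 : ℝ) else 0) = cs c0 t := by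
      unfold cs
      rw [card_filter]
      push_cast
      rfl
    rw [h3]
    field_simp
  have hdiag : ∀ i, A i i = Nn V c0 (c0 i) i := by
    intro i
    have h1 : ∑ j, ((if c0 j = c0 i then Nn V c0 (c0 i) j else 0) -
        (if c0 j = c0 i then A j j else 0)) = 0 := by
      rw [sum_sub_distrib, N_sum V c0 hc0.1, hclass, sub_self]
    have h2 := (sum_eq_zero_iff_of_nonneg (fun j _ => ?_)).1 h1 i (mem_univ i)
    · rw [if_pos rfl, if_pos rfl] at h2
      linarith
    · split_ifs with h
      · have := diag_le hA U V hUV c0 hc0 j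
        rw [h] at this
        linarith
      · linarith
  have hfac := factor A U V hUV c0 hc0.1
  have hG0 : ∀ i t, t ≠ c0 i → (A * E c0) i t = 0 := by
    intro i t ht
    have h1 : ∑ t, (A * E c0) i t * (Nn V c0 (c0 i) i - Nn V c0 t i) = 0 := by
      simp only [mul_sub]
      rw [sum_sub_distrib, ← sum_mul, AE_sum hA, one_mul, ← hdiag i]
      have := congrFun (congrFun hfac i) i
      rw [Matrix.mul_apply] at this
      rw [← this, sub_self]
    have h2 := (sum_eq_zero_iff_of_nonneg (fun t _ => mul_nonneg (AE_nonneg hA c0 i t)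
      (sub_nonneg.2 (N_le V c0 hc0 i t)))).1 h1 t (mem_univ t)
    rcases mul_eq_zero.1 h2 with h | h
    · exact h
    · have := hstrict i t ht
      linarith
  have hG1 : ∀ i, (A * E c0) i (c0 i) = 1 := by
    intro i
    rw [← AE_sum hA c0 i]
    symm
    apply sum_eq_single
    · intro t _ ht
      exact hG0 i t ht
    · intro h
      exact absurd (mem_univ _) h
  intro p j
  by_cases hpj : c0 p = c0 j
  · rw [if_pos hpj]
    have h1 := congrFun (congrFun hfac p) j
    rw [Matrix.mul_apply, sum_eq_single (c0 p)] at h1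
    · rw [h1, hG1, one_mul, hpj, ← hdiag j, hval j]
    · intro t _ ht
      rw [hG0 p t ht, zero_mul]
    · intro h
      exact absurd (mem_univ _) h
  · rw [if_neg hpj]
    have h1 := hG0 p (c0 j) (fun h => hpj h.symm)
    rw [Matrix.mul_apply] at h1
    have h2 := (sum_eq_zero_iff_of_nonneg (fun j' _ => ?_)).1 h1 j (mem_univ j)
    · unfold E at h2
      rw [if_pos rfl, mul_one] at h2
      exact h2
    · unfold E
      split_ifs
      · rw [mul_one]; exact hA.1 p j'
      · rw [mul_zero]

end Pool.Agent.LibRankDiag
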