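import Mathlib

namespace Pool.Agent.LibRankDiag

open Finset Matrix

variable {n k : ℕ}

/-- indicator matrix of a partition of the columns -/
def E (c : Fin n → Fin k) : Matrix (Fin n) (Fin k) ℝ := fun i t => if c i = t then 1 else 0

lemma E_update (c : Fin n → Fin k) (i : Fin n) (t : Fin k) :
    E (Function.update c i t) =
      E c + (replicateCol Unit (Pi.single i (1 : ℝ)) : Matrix (Fin n) Unit ℝ) *
      (replicateRow Unit (Pi.single t (1 : ℝ) - Pi.single (c i) (1 : ℝ)) :
        Matrix Unit (Fin k) ℝ) := by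
  ext p q
  rw [Matrix.add_apply, Matrix.mul_apply]
  simp only [univ_unique, PUnit.default_eq_unit, sum_singleton, replicateCol_apply,
    replicateRow_apply, Pi.sub_apply]
  unfold E
  by_cases hp : p = i
  · subst hp
    rw [Function.update_self, Pi.single_eq_same, one_mul]
    by_cases h1 : t = q
    · subst h1
      by_cases h2 : c p = t
      · subst h2; simp
      · rw [if_pos rfl, if_neg h2, Pi.single_eq_same, Pi.single_eq_of_ne (fun h => h2 h.symm)]
        ring
    · rw [if_neg h1, Pi.single_eq_of_ne (fun h => h1 h.symm)]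
      by_cases h2 : c p = q
      · subst h2; simp
      · rw [if_neg h2, Pi.single_eq_of_ne (fun h => h2 h.symm)]
        ring
  · rw [Function.update_of_ne hp, Pi.single_eq_of_ne hp]
    ring

/-- a partition of the columns with maximal nonzero determinant -/
def IsMax (V : Matrix (Fin k) (Fin n) ℝ) (c : Fin n → Fin k) : Prop :=
  (V * E c).det ≠ 0 ∧ ∀ c' : Fin n → Fin k, |(V * E c').det| ≤ |(V * E c).det|

lemma exists_isMax (V : Matrix (Fin k) (Fin n) ℝ) (h : ∃ c : Fin n → Fin k, (V * E c).det ≠ 0) :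
    ∃ c, IsMax V c := by
  obtain ⟨c0, hc0⟩ := h
  obtain ⟨c, -, hc⟩ := Finset.exists_max_image (univ : Finset (Fin n → Fin k))
    (fun c => |(V * E c).det|) ⟨c0, mem_univ _⟩
  refine ⟨c, ?_, fun c' => hc c' (mem_univ _)⟩
  intro h0
  have := hc c0 (mem_univ _)
  rw [h0, abs_zero] at this
  exact hc0 (abs_nonpos_iff.1 this)

/-- the coordinates of the columns with respect to the class sums -/
noncomputable def Nn (V : Matrix (Fin k) (Fin n) ℝ) (c : Fin n → Fin k) :
    Matrix (Fin k) (Fin n) ℝ := (V * E c)⁻¹ * V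

lemma det_update (V : Matrix (Fin k) (Fin n) ℝ) (c : Fin n → Fin k) (hc : (V * E c).det ≠ 0)
    (i : Fin n) (t : Fin k) : (V * E (Function.update c i t)).det =
      (V * E c).det * (1 + (Nn V c t i - Nn V c (c i) i)) := by
  rw [E_update, Matrix.mul_add, ← Matrix.mul_assoc]
  have h1 : V * (replicateCol Unit (Pi.single i (1 : ℝ)) : Matrix (Fin n) Unit ℝ) =
      replicateCol Unit (fun t => V t i) := by
    ext p q
    rw [Matrix.mul_apply]
    simp [Pi.single_apply]
  rw [h1, Matrix.det_add_replicateCol_mul_replicateRow (isUnit_iff_ne_zero.2 hc)]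
  congr 1
  have h2 : (replicateRow Unit (Pi.single t (1 : ℝ) - Pi.single (c i) (1 : ℝ)) :
      Matrix Unit (Fin k) ℝ) * (V * E c)⁻¹ * (replicateCol Unit (fun t => V t i) :
      Matrix (Fin k) Unit ℝ) = fun _ _ => Nn V c t i - Nn V c (c i) i := by
    ext p q
    rw [← h1, Matrix.mul_assoc, ← Matrix.mul_assoc (V * E c)⁻¹ V]
    change ((replicateRow Unit (Pi.single t (1 : ℝ) - Pi.single (c i) (1 : ℝ)) :
      Matrix Unit (Fin k) ℝ) * (Nn V c * (replicateCol Unit (Pi.single i (1 : ℝ)) :
      Matrix (Fin n) Unit ℝ))) p q = _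
    rw [Matrix.mul_apply]
    have h4 : ∀ j, (Nn V c * (replicateCol Unit (Pi.single i (1 : ℝ)) :
        Matrix (Fin n) Unit ℝ)) j q = Nn V c j i := by
      intro j
      rw [Matrix.mul_apply]
      simp [Pi.single_apply]
    simp only [h4, replicateRow_apply, Pi.sub_apply, sub_mul, sum_sub_distrib]
    simp [Pi.single_apply]
  rw [h2, Matrix.det_unique]
  rfl

lemma N_le (V : Matrix (Fin k) (Fin n) ℝ) (c : Fin n → Fin k) (hc : IsMax V c)
    (i : Fin n) (t : Fin k) : Nn V c t i ≤ Nn V c (c i) i := by
  have h1 := hc.2 (Function.update c i t)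
  rw [det_update V c hc.1, abs_mul] at h1
  have h0 : 0 < |(V * E c).det| := abs_pos.2 hc.1
  have h2 : |1 + (Nn V c t i - Nn V c (c i) i)| ≤ 1 := by
    by_contra hlt
    push Not at hlt
    nlinarith
  have h3 := (abs_le.1 h2).2
  linarith

lemma isMax_update (V : Matrix (Fin k) (Fin n) ℝ) (c : Fin n → Fin k) (hc : IsMax V c)
    (i : Fin n) (t : Fin k) (h : Nn V c t i = Nn V c (c i) i) :
    IsMax V (Function.update c i t) := by
  have h1 : (V * E (Function.update c i t)).det = (V * E c).det := by
    rw [det_update V c hc.1, h]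
    ring
  constructor
  · rw [h1]; exact hc.1
  · intro c'
    rw [h1]
    exact hc.2 c'

lemma N_mul_E (V : Matrix (Fin k) (Fin n) ℝ) (c : Fin n → Fin k) (hc : (V * E c).det ≠ 0) :
    Nn V c * E c = 1 := by
  unfold Nn
  rw [Matrix.mul_assoc, Matrix.nonsing_inv_mul _ (isUnit_iff_ne_zero.2 hc)]

lemma N_sum (V : Matrix (Fin k) (Fin n) ℝ) (c : Fin n → Fin k) (hc : (V * E c).det ≠ 0)
    (t : Fin k) : ∑ i, (if c i = t then Nn V c t i else 0) = 1 := by
  have h := congrFun (congrFun (N_mul_E V c hc) t) t
  rw [Matrix.mul_apply, Matrix.one_apply_eq] at h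
  rw [← h]
  apply sum_congr rfl
  intro i _
  unfold E
  split_ifs
  · rw [mul_one]
  · rw [mul_zero]

lemma factor (A : Matrix (Fin n) (Fin n) ℝ) (U : Matrix (Fin n) (Fin k) ℝ)
    (V : Matrix (Fin k) (Fin n) ℝ) (hA : A = U * V) (c : Fin n → Fin k)
    (hc : (V * E c).det ≠ 0) : A = (A * E c) * Nn V c := by
  unfold Nn
  conv_rhs => rw [hA]
  rw [Matrix.mul_assoc U V (E c), Matrix.mul_assoc U, ← Matrix.mul_assoc (V * E c) _ V,
    Matrix.mul_nonsing_inv _ (isUnit_iff_ne_zero.2 hc), Matrix.one_mul]
  exact hA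

/-- row-stochastic matrices -/
def RowStochastic (A : Matrix (Fin n) (Fin n) ℝ) : Prop :=
  (∀ i j, 0 ≤ A i j) ∧ ∀ i, ∑ j, A i j = 1

lemma AE_nonneg {A : Matrix (Fin n) (Fin n) ℝ} (hA : RowStochastic A) (c : Fin n → Fin k)
    (i : Fin n) (t : Fin k) : 0 ≤ (A * E c) i t := by
  rw [Matrix.mul_apply]
  apply sum_nonneg
  intro j _
  unfold E
  split_ifs
  · rw [mul_one]; exact hA.1 i j
  · rw [mul_zero]

lemma AE_sum {A : Matrix (Fin n) (Fin n) ℝ} (hA : RowStochastic A) (c : Fin n → Fin k)
    (i : Fin n) : ∑ t, (A * E c) i t = 1 := by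
  simp only [Matrix.mul_apply]
  rw [sum_comm, ← hA.2 i]
  apply sum_congr rfl
  intro j _
  unfold E
  rw [← mul_sum, sum_ite_eq]
  simp

lemma diag_le {A : Matrix (Fin n) (Fin n) ℝ} (hA : RowStochastic A)
    (U : Matrix (Fin n) (Fin k) ℝ) (V : Matrix (Fin k) (Fin n) ℝ) (hUV : A = U * V)
    (c : Fin n → Fin k) (hc : IsMax V c) (i : Fin n) : A i i ≤ Nn V c (c i) i := by
  have h1 := congrFun (congrFun (factor A U V hUV c hc.1) i) i
  rw [h1, Matrix.mul_apply]
  calc ∑ t, (A * E c) i t * Nn V c t i ≤ ∑ t, (A * E c) i t * Nn V c (c i) i := by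
        apply sum_le_sum
        intro t _
        exact mul_le_mul_of_nonneg_left (N_le V c hc i t) (AE_nonneg hA c i t)
    _ = Nn V c (c i) i := by rw [← sum_mul, AE_sum hA, one_mul]

/-- the class sums of the diagonal are at most one -/
theorem class_sum_le {A : Matrix (Fin n) (Fin n) ℝ} (hA : RowStochastic A)
    (U : Matrix (Fin n) (Fin k) ℝ) (V : Matrix (Fin k) (Fin n) ℝ) (hUV : A = U * V)
    (c : Fin n → Fin k) (hc : IsMax V c) (t : Fin k) :
    ∑ i, (if c i = t then A i i else 0) ≤ 1 := by
  rw [← N_sum V c hc.1 t]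
  apply sum_le_sum
  intro i _
  split_ifs with h
  · rw [← h]
    exact diag_le hA U V hUV c hc i
  · exact le_refl _

/-- rank factorisation with a good partition -/
lemma exists_factor {A : Matrix (Fin n) (Fin n) ℝ} (hA : RowStochastic A) (hn : 0 < n)
    (hk : A.rank = k) :
    ∃ (U : Matrix (Fin n) (Fin k) ℝ) (V : Matrix (Fin k) (Fin n) ℝ), A = U * V ∧
      ∃ c : Fin n → Fin k, (V * E c).det ≠ 0 := by
  classical
  have hex := Submodule.exists_fun_fin_finrank_span_eq ℝ (Set.range A.col)
  rw [← A.rank_eq_finrank_span_cols, hk] at hex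
  obtain ⟨f, hf1, hf2, hf3⟩ := hex
  choose j hj using hf1
  have hcol : ∀ i, ∃ cf : Fin k → ℝ, ∑ t, cf t • f t = A.col i := by
    intro i
    have : A.col i ∈ Submodule.span ℝ (Set.range f) := by
      rw [hf2]
      exact Submodule.subset_span ⟨i, rfl⟩
    exact (Submodule.mem_span_range_iff_exists_fun ℝ).1 this
  choose W hW using hcol
  have hV1 : ∀ t' t, W (j t') t = if t = t' then 1 else 0 := by
    intro t' t
    have h1 : ∑ t, (W (j t') t - if t = t' then (1 : ℝ) else 0) • f t = 0 := by
      simp only [sub_smul, sum_sub_distrib, ite_smul, one_smul, zero_smul, sum_ite_eq',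
        mem_univ, if_true]
      rw [hW, hj, sub_self]
    have h2 := Fintype.linearIndependent_iff.1 hf3 _ h1 t
    linarith
  have hjinj : Function.Injective j := by
    intro a b hab
    apply hf3.injective
    rw [← hj a, ← hj b, hab]
  set V : Matrix (Fin k) (Fin n) ℝ := fun t i => W i t with hV
  refine ⟨fun p t => f t p, V, ?_, ?_⟩
  · ext p i
    rw [Matrix.mul_apply]
    have := congrFun (hW i) p
    rw [Finset.sum_apply] at this
    calc A p i = A.col i p := rfl
      _ = ∑ t, (W i t • f t) p := this.symm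
      _ = _ := by
        apply sum_congr rfl
        intro t _
        rw [Pi.smul_apply, smul_eq_mul, mul_comm]
  · -- a coordinate of the all-ones vector is nonzero
    have hy : ∃ t0, ∑ i, V t0 i ≠ 0 := by
      by_contra hno
      push Not at hno
      have h1 := hA.2 ⟨0, hn⟩
      have h2 : ∀ i, A ⟨0, hn⟩ i = ∑ t, W i t * f t ⟨0, hn⟩ := by
        intro i
        have := congrFun (hW i) ⟨0, hn⟩
        rw [Finset.sum_apply] at this
        exact this.symm
      rw [sum_congr rfl (fun i _ => h2 i), sum_comm] at h1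
      have h3 : ∀ t, ∑ i, W i t * f t ⟨0, hn⟩ = 0 := by
        intro t
        rw [← sum_mul]
        have : ∑ i, W i t = 0 := hno t
        rw [this, zero_mul]
      rw [sum_congr rfl (fun t _ => h3 t), sum_const_zero] at h1
      exact zero_ne_one h1
    obtain ⟨t0, ht0⟩ := hy
    set c : Fin n → Fin k := Function.extend j id (fun _ => t0) with hc
    have hcj : ∀ t, c (j t) = t := by
      intro t
      rw [hc, hjinj.extend_apply]
      rfl
    have hciff : ∀ i t, t ≠ t0 → (c i = t ↔ i = j t) := by
      intro i t ht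
      constructor
      · intro h
        by_cases hex : ∃ a, j a = i
        · obtain ⟨a, rfl⟩ := hex
          rw [hcj] at h
          rw [h]
        · rw [hc, Function.extend_apply' _ _ _ hex] at h
          exact absurd h.symm ht
      · rintro rfl
        exact hcj t
    refine ⟨c, ?_⟩
    have hcolt : ∀ t' t, t ≠ t0 → (V * E c) t' t = if t' = t then 1 else 0 := by
      intro t' t ht
      rw [Matrix.mul_apply]
      have : ∀ i, V t' i * E c i t = if i = j t then V t' i else 0 := by
        intro i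
        unfold E
        rw [if_congr (hciff i t ht) rfl rfl]
        split_ifs
        · rw [mul_one]
        · rw [mul_zero]
      rw [sum_congr rfl (fun i _ => this i), sum_ite_eq' univ (j t)]
      simp only [mem_univ, if_true]
      exact hV1 t t'
    have hmat : V * E c = (1 : Matrix (Fin k) (Fin k) ℝ).updateCol t0
        (fun t' => (V * E c) t' t0) := by
      ext t' t
      by_cases ht : t = t0
      · subst ht
        rw [Matrix.updateCol_self]
      · rw [Matrix.updateCol_ne ht, hcolt t' t ht, Matrix.one_apply]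
    have hdet : (V * E c).det = (V * E c) t0 t0 := by
      conv_lhs => rw [hmat]
      rw [← Matrix.cramer_apply, Matrix.cramer_one]
      rfl
    rw [hdet]
    have hsum : ∑ i, V t0 i = (V * E c) t0 t0 := by
      have h1 : ∑ t, (V * E c) t0 t = ∑ i, V t0 i := by
        simp only [Matrix.mul_apply]
        rw [sum_comm]
        apply sum_congr rfl
        intro i _
        unfold E
        rw [← mul_sum, sum_ite_eq]
        simp
      rw [← h1, ← add_sum_erase univ _ (mem_univ t0)]
      have h2 : ∑ t ∈ univ.erase t0, (V * E c) t0 t = 0 := by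
        apply sum_eq_zero
        intro t ht
        have ht' := (mem_erase.1 ht).1
        rw [hcolt t0 t ht', if_neg ht'.symm]
      rw [h2, add_zero]
    rw [← hsum]
    exact ht0

end Pool.Agent.LibRankDiag
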